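import Mathlib
import Pool.Agent.H89.TG4

set_option autoImplicit false

namespace Pool.Agent.Results.MP_d609bd_co.Empty

/-- A drawing of `G` in the space `X`: distinct points for the vertices, and for each edge a simple
arc joining its ends (the two orientations trace the same arc) through no other vertex. -/
structure Drawing (X : Type) [TopologicalSpace X] {V : Type} (G : SimpleGraph V) where
  pos : V → X
  arc : V → V → ℝ → X
  pos_inj : Function.Injective pos
  cont : ∀ u v, G.Adj u v → ContinuousOn (arc u v) (Set.Icc 0 1)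
  inj : ∀ u v, G.Adj u v → Set.InjOn (arc u v) (Set.Icc 0 1)
  src : ∀ u v, G.Adj u v → arc u v 0 = pos u
  tgt : ∀ u v, G.Adj u v → arc u v 1 = pos v
  rev : ∀ u v, G.Adj u v → ∀ t ∈ Set.Icc (0 : ℝ) 1, arc v u t = arc u v (1 - t)
  avoid : ∀ u v, G.Adj u v → ∀ t ∈ Set.Ioo (0 : ℝ) 1, ∀ w, arc u v t ≠ pos w

/-- `G` embeds in `X`: it has a drawing in which distinct edges have no common interior point. -/
def Embeds (X : Type) [TopologicalSpace X] {V : Type} (G : SimpleGraph V) : Prop :=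
  ∃ D : Drawing X G, ∀ u v u' v', G.Adj u v → G.Adj u' v' → s(u, v) ≠ s(u', v') →
    ∀ s ∈ Set.Ioo (0 : ℝ) 1, ∀ t ∈ Set.Ioo (0 : ℝ) 1, D.arc u v s ≠ D.arc u' v' t

/-- Toroidal graphs: those embedding in the torus `ℝ/ℤ × ℝ/ℤ`. -/
def Toroidal {V : Type} (G : SimpleGraph V) : Prop := Embeds (UnitAddCircle × UnitAddCircle) G

/-- `G` is `k`-planar: it has a drawing in the plane in which every edge `uv` carries at most `k`
crossings, a crossing being another edge together with a point interior to both arcs. -/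
def KPlanar (k : ℕ) {V : Type} (G : SimpleGraph V) : Prop :=
  ∃ D : Drawing ℂ G, ∀ u v, G.Adj u v →
    {x : Sym2 V × ℂ | ∃ u' v', G.Adj u' v' ∧ x.1 = s(u', v') ∧ s(u', v') ≠ s(u, v) ∧
      (∃ s ∈ Set.Ioo (0 : ℝ) 1, D.arc u v s = x.2) ∧
      ∃ t ∈ Set.Ioo (0 : ℝ) 1, D.arc u' v' t = x.2}.encard ≤ k

/-- The statement `P(d,k)`. -/
def P (d k : ℕ) : Prop :=
  ∀ (V : Type) [Finite V] (G : SimpleGraph V), Toroidal G → (∀ v, (G.neighborSet v).ncard ≤ d) →
    ∃ F ⊆ G.edgeSet, F.ncard ≤ k ∧ KPlanar k (G.deleteEdges F)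

theorem result : {d : ℕ | 3 ≤ d ∧ ∃ k, P d k} = ∅ := by
  classical
  refine Set.eq_empty_of_forall_notMem ?_
  rintro d ⟨hd, k, h⟩
  obtain ⟨N, M, hN, h0, hM, g⟩ := H89.TG.kplanar k
  obtain ⟨D, hD⟩ := H89.TG.toroidal hN h0
  obtain ⟨F, -, h1, E, hE⟩ := h _ (H89.TG.H N M)
    ⟨⟨D.1, D.2, D.3, D.4, D.5, D.6, D.7, D.8, D.9⟩, hD⟩ (fun v => by
      refine le_trans (le_of_eq ?_) ((H89.TG.deg3 h0 hM v).trans hd)
      rw [← Set.ncard_coe_finset]
      congr 1
      ext w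
      simp)
  exact g F h1 ⟨E.1, E.2, E.3, E.4, E.5, E.6, E.7, E.8, E.9⟩ hE

end Pool.Agent.Results.MP_d609bd_co.Empty
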